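import Mathlib

namespace Pool.Agent.Results.MP_900fba_co.No

lemma split (n : ℤ) (hn : n ≠ 0) : ∃ (v : ℕ) (u : ℤ), ¬(3 : ℤ) ∣ u ∧ n = 3 ^ v * u := by
  obtain ⟨v, u, h1, h2⟩ := WfDvdMonoid.max_power_factor hn Int.prime_three.irreducible
  exact ⟨v, u, h1, h2⟩

lemma uniq (v v' : ℕ) (u u' : ℤ) (h : ¬(3 : ℤ) ∣ u) (h' : ¬(3 : ℤ) ∣ u')
    (e : 3 ^ v * u = 3 ^ v' * u') : v = v' ∧ u = u' := by
  have key : ∀ (a b : ℕ) (s t : ℤ), ¬(3 : ℤ) ∣ s → 3 ^ a * s = 3 ^ b * t → b ≤ a := fun a b s t hs e => by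
    by_contra hc
    obtain ⟨k, rfl⟩ : ∃ k, b = a + (k + 1) := ⟨b - a - 1, by omega⟩
    rw [pow_add, mul_assoc] at e
    have := mul_left_cancel₀ (by positivity) e
    exact hs ⟨3 ^ k * t, by rw [this]; ring⟩
  have : v = v' := le_antisymm (key v' v u' u h' e.symm) (key v v' u u' h e)
  subst this
  exact ⟨rfl, mul_left_cancel₀ (by positivity) e⟩

lemma core (a b c d : ℕ) (x y w z : ℤ) (hx : ¬(3 : ℤ) ∣ x) (hy : ¬(3 : ℤ) ∣ y) (hw : ¬(3 : ℤ) ∣ w)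
    (hz : ¬(3 : ℤ) ∣ z) (h1 : a % 12 = b % 12) (h2 : a % 12 = c % 12) (h3 : x % 9 = w % 9)
    (e : 5 ^ 4 * (3 ^ a * x) + 3 ^ 6 * (3 ^ b * y) = 3 ^ c * w * (3 ^ d * z) ^ 12) : False := by
  have hR : ¬(3 : ℤ) ∣ w * z ^ 12 := fun h =>
    (Int.prime_three.dvd_or_dvd h).elim hw fun h => hz (Int.prime_three.dvd_of_dvd_pow h)
  have e' : 5 ^ 4 * (3 ^ a * x) + 3 ^ 6 * (3 ^ b * y) = 3 ^ (c + 12 * d) * (w * z ^ 12) := by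
    rw [e]; ring
  rcases lt_or_ge a (b + 6) with h | h
  · obtain ⟨k, hk⟩ : ∃ k, b + 6 = a + (k + 2) := ⟨b + 6 - a - 2, by omega⟩
    have f : 5 ^ 4 * (3 ^ a * x) + 3 ^ 6 * (3 ^ b * y) = 3 ^ a * (625 * x + 9 * (3 ^ k * y)) := by
      have : (3 : ℤ) ^ 6 * 3 ^ b = 3 ^ a * 3 ^ (k + 2) := by rw [← pow_add, ← pow_add, add_comm, hk]
      linear_combination y * this
    rw [f] at e'
    have g := (uniq _ _ _ _ (by omega) hR e').2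
    have hz9 : z ^ 12 % 9 = 1 := by
      have : z % 9 = 1 ∨ z % 9 = 2 ∨ z % 9 = 4 ∨ z % 9 = 5 ∨ z % 9 = 7 ∨ z % 9 = 8 := by omega
      rcases this with h | h | h | h | h | h <;> simp [pow_succ, Int.mul_emod, h]
    have g2 : (w * z ^ 12) % 9 = w % 9 := by rw [Int.mul_emod, hz9]; simp
    omega
  · obtain ⟨k, hk⟩ : ∃ k, a = b + 6 + (k + 1) := ⟨a - b - 7, by omega⟩
    have f : 5 ^ 4 * (3 ^ a * x) + 3 ^ 6 * (3 ^ b * y) = 3 ^ (b + 6) * (y + 3 * (625 * 3 ^ k * x)) := by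
      rw [hk]; ring
    rw [f] at e'
    have g := (uniq _ _ _ _ (by omega) hR e').1
    omega

theorem result : ∃ (r : ℕ) (c : ℤ → Fin r),
    (∀ x y w z : ℤ, x ≠ 0 → y ≠ 0 → w ≠ 0 → z ≠ 0 → 5 ^ 4 * x + 3 ^ 6 * y = w * z ^ 12 →
      ¬(c x = c y ∧ c x = c w)) ∧
    ¬∃ (j : Fin r) (x₁ y₁ w₁ z₁ x₂ y₂ w₂ z₂ : ℤ),
      (∀ v ∈ [x₁, y₁, w₁, z₁, x₂, y₂, w₂, z₂], v ≠ 0 ∧ c v = j) ∧
      5 ^ 4 * x₁ + 3 ^ 6 * y₁ = w₁ * z₁ ^ 12 ∧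
      (5 ^ 4 - 3 ^ 6) * x₂ + 3 ^ 6 * y₂ = w₂ * z₂ ^ 12 := by
  choose! v u hu hv using split
  have bd : ∀ n, v n % 12 * 9 + (u n % 9).toNat < 108 := fun n => by omega
  have main : ∀ x y w z : ℤ, x ≠ 0 → y ≠ 0 → w ≠ 0 → z ≠ 0 → 5 ^ 4 * x + 3 ^ 6 * y = w * z ^ 12 →
      ¬((⟨_, bd x⟩ : Fin 108) = ⟨_, bd y⟩ ∧ (⟨_, bd x⟩ : Fin 108) = ⟨_, bd w⟩) := by
    intro x y w z hx hy hw hz e ⟨h1, h2⟩
    rw [Fin.mk.injEq] at h1 h2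
    refine core (v x) (v y) (v w) (v z) (u x) (u y) (u w) (u z) (hu x hx) (hu y hy) (hu w hw)
      (hu z hz) (by omega) (by omega) (by omega) ?_
    rw [← hv x hx, ← hv y hy, ← hv w hw, ← hv z hz, e]
  refine ⟨108, fun n => ⟨_, bd n⟩, main, ?_⟩
  rintro ⟨j, x, y, w, z, _, _, _, _, h, e, -⟩
  have hx := h x (by simp)
  have hy := h y (by simp)
  have hw := h w (by simp)
  have hz := h z (by simp)
  exact main x y w z hx.1 hy.1 hw.1 hz.1 e ⟨hx.2.trans hy.2.symm, hx.2.trans hw.2.symm⟩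

end Pool.Agent.Results.MP_900fba_co.No
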